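import Mathlib
import Pool.Agent.L0h45.AR.D3b

/-!
# Project VL (helper45): the average of `2 ^ rank` in the families `y² = x³ + A x + B`, `A` fixed, uniformly in `A`

Statements of the modules. `Q4`, `Q4.I`, `Box`, `Eqv`, `NoRoot` are in `Pool/Agent/L0h45/AR/Stm.lean` and `.../AR/D3.lean`.
-/

set_option autoImplicit false

open Finset

namespace Pool.Agent.L0h45.VL

open Pool.Agent.L0h45.AR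

/-- V2: the pairs `(d, e)` with `12 a e - 3 b d = m` in a box -/
def S_V2 : Prop := ∀ (j : ℕ) (L : ℝ) (a b m : ℤ), a ≠ 0 → b ≠ 0 → |(a : ℝ)| * 16 ^ j ≤ L →
  |(b : ℝ)| * 4 ^ j ≤ L → ∀ S : Finset (ℤ × ℤ),
  (∀ z ∈ S, 12 * a * z.2 - 3 * b * z.1 = m ∧ |(z.1 : ℝ)| ≤ L * 4 ^ j ∧ |(z.2 : ℝ)| ≤ L * 16 ^ j) →
  (S.card : ℝ) ≤ 3 * (Int.gcd (4 * a) b : ℝ) * (L * 8 ^ j / √(|(a : ℝ)| * |(b : ℝ)|))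

/-- V3: the number of the `c` with `g ∣ c² - n`, uniformly in `n` -/
def S_V3 : Prop := ∀ (g : ℕ) (L : ℝ) (n : ℤ), 1 ≤ g → 1 ≤ L → (g : ℝ) ≤ 4 * L → ∀ S : Finset ℤ,
  (∀ c ∈ S, (g : ℤ) ∣ c ^ 2 - n ∧ |(c : ℝ)| ≤ L) →
  (S.card : ℝ) ≤ 4 * (g.divisors.card : ℝ) * (L / √(g : ℝ))

/-- V4: a sum over pairs of positive integers -/
def S_V4 : Prop := ∃ C : ℝ, 0 < C ∧ ∀ M N : ℕ,
  ∑ a ∈ Icc 1 M, ∑ b ∈ Icc 1 N, ((Nat.gcd (4 * a) b).divisors.card : ℝ) * √(Nat.gcd (4 * a) b : ℝ) /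
    √((a : ℝ) * b) ≤ C * √((M : ℝ) * N)

/-- V6: the number of the forms with given invariant `I` in a box -/
def S_V6 : Prop := ∃ C : ℝ, 0 < C ∧ ∀ (j : ℕ) (L : ℝ), (16 : ℝ) ^ j ≤ L → ∀ n : ℤ, ∀ S : Finset (Q4 ℤ),
  (∀ F ∈ S, F.a ≠ 0 ∧ F.I = n ∧ Box L j F) → (S.card : ℝ) ≤ C * L ^ 3

/-- V7: the number of the classes with given invariant `I` -/
def S_V7 : Prop := ∃ C : ℝ, 0 < C ∧ ∀ T : ℝ, 1 ≤ T → ∀ n : ℤ, ∀ S : Finset (Q4 ℤ),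
  (∀ F ∈ S, NoRoot F ∧ F.I = n ∧ 0 < |(F.I : ℝ)| ^ 3 + (F.J : ℝ) ^ 2 ∧
    |(F.I : ℝ)| ^ 3 + (F.J : ℝ) ^ 2 ≤ T ^ 6) →
  (∀ F ∈ S, ∀ G ∈ S, F ≠ G → ¬ Eqv F G) → (S.card : ℝ) ≤ C * T ^ 3

/-- V8: the sum over the curves on a vertical line -/
def S_V8 : Prop := ∃ C : ℝ, 0 < C ∧ ∀ X : ℝ, 1 ≤ X → ∀ A : ℤ, |(A : ℝ)| ^ 3 ≤ X ^ 2 → ∀ S : Finset ℤ,
  (∀ B ∈ S, 4 * A ^ 3 + 27 * B ^ 2 ≠ 0 ∧ |(B : ℝ)| ≤ X) →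
  ∑ B ∈ S, (2 : ℝ) ^ Module.finrank ℤ (crv A B).toAffine.Point ≤ C * X

end Pool.Agent.L0h45.VL
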