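import Pool.Agent.L0h45.VL.V7
import Pool.Agent.L0h50.VL.V6
import Pool.Agent.L0h83.VL.V2
import Pool.Agent.L0h85.VL.V3
import Pool.Agent.L0h85.VL.V4

/-!
# VL: assembly
-/

namespace Pool.Agent.L0h45.VL

/-- the sum over the curves on a vertical line -/
theorem main : S_V8 :=
  v8 (v7 (Pool.Agent.L0h50.VL.v6 Pool.Agent.L0h83.VL.v2 Pool.Agent.L0h85.VL.t_V3 Pool.Agent.L0h85.VL.t_V4))

end Pool.Agent.L0h45.VL
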