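import Pool.Agent.L0h45.VL.Stm
import Pool.Agent.L0h45.AR.Sum

/-!
# V7, V8
-/

set_option autoImplicit false

open Finset

namespace Pool.Agent.L0h45.VL

open Pool.Agent.L0h45.AR

theorem uni_I (F : Q4 ℤ) (k : ℤ) : (F.sub 1 k 0 1).I = F.I := by
  rw [sub_I]
  ring

/-- **V7** -/
theorem v7 (h6 : S_V6) : S_V7 := by
  classical
  obtain ⟨C, hC, H⟩ := reduce d1 d2
  obtain ⟨C₁, hC₁, H₁⟩ := h6
  refine ⟨2 * C₁ * (10 * C) ^ 3, by positivity, ?_⟩
  intro T hT n S hS hne
  have hT0 : 0 < T := by linarith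
  choose! G hG1 hG2 using fun F (hF : F ∈ S) => H T hT F (hS F hF).2.2.1 (hS F hF).2.2.2
  choose! j hj using hG2
  have hGa : ∀ F ∈ S, (G F).a ≠ 0 := fun F hF => (hS F hF).1 _ (hG1 F hF)
  have hGI : ∀ F ∈ S, (G F).I = n := fun F hF => (hG1 F hF).I_eq.trans (hS F hF).2.1
  obtain ⟨M, hM⟩ : ∃ M, M = (S.image j).sup id + 1 := ⟨_, rfl⟩
  have hjM : ∀ F ∈ S, j F ∈ range M := by
    intro F hF
    rw [mem_range, hM]
    have := le_sup (f := id) (mem_image_of_mem j hF)
    simp only [id] at this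
    omega
  have hcount : ∀ m : ℕ, (((S.filter (fun F => j F = m)).card : ℕ) : ℝ) ≤
      C₁ * (10 * (C * T)) ^ 3 * (1 / 4) ^ m := by
    intro m
    rcases (S.filter (fun F => j F = m)).eq_empty_or_nonempty with he | ⟨F₀, hF₀⟩
    · rw [he, card_empty, Nat.cast_zero]
      positivity
    · rw [mem_filter] at hF₀
      obtain ⟨hF₀S, hF₀m⟩ := hF₀
      have hL : (16 : ℝ) ^ m ≤ 10 * (C * T) := by
        have h3 := (hj F₀ hF₀S).a
        rw [hF₀m] at h3
        have h4 : (1 : ℝ) ≤ |((G F₀).a : ℝ)| := by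
          have : (1 : ℤ) ≤ |(G F₀).a| := Int.one_le_abs (hGa F₀ hF₀S)
          exact_mod_cast this
        have h5 : 0 < C * T := by positivity
        have h6 : (0 : ℝ) < 16 ^ m := by positivity
        nlinarith
      obtain ⟨U, hU⟩ : ∃ U : Finset (Q4 ℤ), U = ((S.filter (fun F => j F = m)) ×ˢ range (4 ^ m)).image
          (fun z => (G z.1).sub 1 (z.2 : ℤ) 0 1) := ⟨_, rfl⟩
      have hcardU : U.card = (S.filter (fun F => j F = m)).card * 4 ^ m := by
        rw [hU, card_image_of_injOn, card_product, card_range]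
        rintro ⟨F, k⟩ hz ⟨F', k'⟩ hz' heq
        rw [mem_coe, mem_product, mem_filter, mem_range] at hz hz'
        obtain ⟨⟨h3, h4⟩, h5⟩ := hz
        obtain ⟨⟨h3', h4'⟩, h5'⟩ := hz'
        simp only at heq h3 h3' h4 h4' h5 h5'
        have hFF : F = F' := by
          by_contra hcon
          apply hne F h3 F' h3' hcon
          have e1 := (hG1 F h3).trans (Eqv.uni (G F) (k : ℤ))
          have e2 := (hG1 F' h3').trans (Eqv.uni (G F') (k' : ℤ))
          rw [heq] at e1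
          exact e1.trans e2.symm
        subst hFF
        rw [Q4.sub_uni, Q4.sub_uni] at heq
        have h6 := congrArg Q4.b heq
        simp only at h6
        have h7 : (4 * (G F).a) * (k : ℤ) = (4 * (G F).a) * (k' : ℤ) := by linarith
        have h8 : (k : ℤ) = k' := mul_left_cancel₀ (mul_ne_zero (by norm_num) (hGa F h3)) h7
        have h9 : k = k' := by exact_mod_cast h8
        rw [h9]
      have h3 := H₁ m (10 * (C * T)) hL n U (by
        intro F hF
        rw [hU, mem_image] at hF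
        obtain ⟨⟨F', k⟩, hz, rfl⟩ := hF
        rw [mem_product, mem_filter, mem_range] at hz
        obtain ⟨⟨h3, h4⟩, h5⟩ := hz
        simp only at h3 h4 h5 ⊢
        refine ⟨?_, ?_, ?_⟩
        · rw [Q4.sub_uni]
          exact hGa F' h3
        · rw [uni_I]
          exact hGI F' h3
        · have h6 := hj F' h3
          rw [h4] at h6
          exact h6.uni h5)
      have h4 : (((S.filter (fun F => j F = m)).card : ℕ) : ℝ) * 4 ^ m ≤ C₁ * (10 * (C * T)) ^ 3 := by
        refine le_trans (le_of_eq ?_) h3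
        rw [hcardU]
        push_cast
        ring
      rw [one_div, inv_pow, ← div_eq_mul_inv, le_div_iff₀ (by positivity)]
      exact h4
  have hsum : (S.card : ℝ) = ∑ m ∈ range M, (((S.filter (fun F => j F = m)).card : ℕ) : ℝ) := by
    rw [card_eq_sum_card_fiberwise (f := j) (t := range M) (fun F hF => hjM F hF)]
    push_cast
    rfl
  have hgeo : ∑ m ∈ range M, ((1 : ℝ) / 4) ^ m ≤ 2 := by
    have h3 : ∀ n : ℕ, ∑ m ∈ range n, ((1 : ℝ) / 4) ^ m ≤ 2 - 2 * (1 / 4) ^ n := by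
      intro n
      induction n with
      | zero => norm_num
      | succ n ih =>
        rw [sum_range_succ, pow_succ]
        have : (0 : ℝ) < (1 / 4) ^ n := by positivity
        linarith
    have h4 : (0 : ℝ) < (1 / 4) ^ M := by positivity
    linarith [h3 M]
  rw [hsum]
  calc _ ≤ ∑ m ∈ range M, C₁ * (10 * (C * T)) ^ 3 * (1 / 4) ^ m := sum_le_sum fun m _ => hcount m
    _ = C₁ * (10 * (C * T)) ^ 3 * ∑ m ∈ range M, (1 / 4) ^ m := by rw [mul_sum]
    _ ≤ C₁ * (10 * (C * T)) ^ 3 * 2 := by gcongr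
    _ = 2 * C₁ * (10 * C) ^ 3 * T ^ 3 := by ring

theorem rpow_three {X : ℝ} (hX : 1 ≤ X) : (X ^ (1 / 3 : ℝ)) ^ 3 = X := by
  rw [← Real.rpow_natCast, ← Real.rpow_mul (by linarith)]
  norm_num

/-- **V8** -/
theorem v8 (h7 : S_V7) : S_V8 := by
  classical
  obtain ⟨C, hC, H⟩ := h7
  refine ⟨C * 13 ^ 3 + 15, by positivity, ?_⟩
  intro X hX A hA S hS
  have hX0 : 0 < X := by linarith
  obtain ⟨y, hy⟩ : ∃ y, y = X ^ (1 / 3 : ℝ) := ⟨_, rfl⟩
  have hy3 : y ^ 3 = X := by rw [hy]; exact rpow_three hX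
  have hy1 : 1 ≤ y := by rw [hy]; exact Real.one_le_rpow hX (by norm_num)
  haveI : Nonempty (Finset (Q4 ℤ)) := ⟨∅⟩
  choose! G hG1 hG2 hG3 using fun (B : ℤ) (hB : B ∈ S) => cos A B (hS B hB).1
  have hinv : ∀ q ∈ S, ∀ q' ∈ S, ∀ F ∈ G q, ∀ F' ∈ G q', Eqv F F' → q = q' := by
    intro q hq q' hq' F hF F' hF' he
    have h2 := he.J_eq
    rw [(hG2 q hq F hF).2.1, (hG2 q' hq' F' hF').2.1] at h2
    omega
  have hdisj : ∀ q ∈ S, ∀ q' ∈ S, q ≠ q' → Disjoint (G q) (G q') := by
    intro q hq q' hq' hne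
    rw [disjoint_left]
    intro F hF hF'
    exact hne (hinv q hq q' hq' F hF F hF' (Eqv.refl F))
  have hall := H (13 * y) (by linarith) (-48 * A) (S.biUnion G) (by
    intro F hF
    rw [mem_biUnion] at hF
    obtain ⟨q, hq, hF⟩ := hF
    obtain ⟨hI, hJ, hn⟩ := hG2 q hq F hF
    obtain ⟨hD, h3⟩ := hS q hq
    refine ⟨hn, hI, ?_, ?_⟩
    · rw [hI, hJ]
      push_cast
      by_contra hcon
      push Not at hcon
      have e1 : 0 ≤ |(-48 * (A : ℝ))| ^ 3 := by positivity
      have e2 : 0 ≤ (-1728 * (q : ℝ)) ^ 2 := by positivity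
      have e3 : |(-48 * (A : ℝ))| ^ 3 = 0 := by linarith
      have e4 : (-1728 * (q : ℝ)) ^ 2 = 0 := by linarith
      have e5 : (A : ℝ) = 0 := by
        have := pow_eq_zero_iff (n := 3) (by norm_num) |>.mp e3
        rw [abs_eq_zero] at this
        linarith
      have e6 : (q : ℝ) = 0 := by
        have := pow_eq_zero_iff (n := 2) (by norm_num) |>.mp e4
        linarith
      have e7 : A = 0 := by exact_mod_cast e5
      have e8 : q = 0 := by exact_mod_cast e6
      apply hD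
      rw [e7, e8]
      norm_num
    · rw [hI, hJ]
      push_cast
      rw [abs_mul, mul_pow]
      have e1 : |(-48 : ℝ)| = 48 := by norm_num
      rw [e1]
      have e2 : (q : ℝ) ^ 2 ≤ X ^ 2 := by
        rw [← sq_abs (q : ℝ)]
        gcongr
      calc (48 : ℝ) ^ 3 * |(A : ℝ)| ^ 3 + (-1728 * (q : ℝ)) ^ 2 =
            110592 * |(A : ℝ)| ^ 3 + 2985984 * (q : ℝ) ^ 2 := by ring
        _ ≤ 110592 * X ^ 2 + 2985984 * X ^ 2 := by gcongr
        _ ≤ 13 ^ 6 * X ^ 2 := by nlinarith [sq_nonneg X]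
        _ = (13 * y) ^ 6 := by rw [← hy3]; ring)
    (by
      intro F hF F' hF' hne he
      rw [mem_biUnion] at hF hF'
      obtain ⟨q, hq, hF⟩ := hF
      obtain ⟨q', hq', hF'⟩ := hF'
      have h1 := hinv q hq q' hq' F hF F' hF' he
      subst h1
      exact hG3 q hq F hF F' hF' hne he)
  rw [card_biUnion hdisj] at hall
  push_cast at hall
  have h1 : ∑ q ∈ S, (2 : ℝ) ^ Module.finrank ℤ (crv A q).toAffine.Point ≤
      ∑ q ∈ S, (((G q).card : ℝ) + 5) := by
    apply sum_le_sum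
    intro q hq
    exact_mod_cast hG1 q hq
  rw [sum_add_distrib, sum_const, nsmul_eq_mul] at h1
  have h2 : (S.card : ℝ) ≤ 3 * X := by
    have h3 : S ⊆ iv X := fun q hq => mem_iv.mpr (hS q hq).2
    have h4 : (S.card : ℝ) ≤ ((iv X).card : ℝ) := by exact_mod_cast card_le_card h3
    exact h4.trans (iv_card hX)
  calc _ ≤ _ := h1
    _ ≤ C * (13 * y) ^ 3 + (3 * X) * 5 := by gcongr
    _ = (C * 13 ^ 3 + 15) * X := by rw [mul_pow, hy3]; ring

end Pool.Agent.L0h45.VL
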